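import Pool.Agent.EHK.Count

/-!
# EHK (MP_7d1a15_lc): the total variance of a map of small expansion
-/

set_option linter.unusedSectionVars false

namespace Pool.Agent.EHK

lemma sum_nq {ι : Type} [Fintype ι] [DecidableEq ι] {m : ℕ} (f : (ι → Bool) → Fin m → Bool)
    (x y : ι → Bool) :
    ∑ i, nq (co f i x) (co f i y) = (hammingDist (f x) (f y) : ℝ) := by
  unfold hammingDist
  rw [Finset.card_filter]
  push_cast
  refine Finset.sum_congr rfl fun i _ => ?_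
  unfold nq co
  cases f x i <;> cases f y i <;> simp

lemma sum_infl {ι : Type} [Fintype ι] [DecidableEq ι] {m : ℕ} {f : (ι → Bool) → Fin m → Bool}
    {C : ℝ} (p : ι) (hfl : ∀ x, (hammingDist (f x) (f (flp p x)) : ℝ) ≤ C) :
    ∑ i, infl p (co f i) ≤ C := by
  have h1 : ∑ i, infl p (co f i) = Ex (fun x => ∑ i, ind p (co f i) x) := by
    rw [Ex_sum]
    rfl
  rw [h1, ← Ex_const (ι := ι) C]
  refine Ex_mono fun x => ?_
  have h2 : ∑ i, ind p (co f i) x = (hammingDist (f x) (f (flp p x)) : ℝ) := by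
    rw [← sum_nq]
    rfl
  rw [h2]
  exact hfl x

lemma sum_Sh {k m : ℕ} {f : (Fin (k + 1) → Bool) → Fin m → Bool} {C : ℝ}
    (hsh : ∀ x b, (hammingDist (f x) (f (sh b x)) : ℝ) ≤ C) : ∑ i, Sh (co f i) ≤ C := by
  have h1 : ∀ b, ∑ i, Ex (fun x => nq (co f i x) (co f i (sh b x))) ≤ C := by
    intro b
    rw [← Ex_sum, ← Ex_const (ι := Fin (k + 1)) C]
    refine Ex_mono fun x => ?_
    rw [sum_nq]
    exact hsh x b
  unfold Sh
  rw [← Finset.sum_div, Finset.sum_add_distrib]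
  have h2 := h1 true
  have h3 := h1 false
  linarith

theorem agg {k m : ℕ} {f : (Fin (k + 1) → Bool) → Fin m → Bool} {C : ℝ}
    (hfl : ∀ p x, (hammingDist (f x) (f (flp p x)) : ℝ) ≤ C)
    (hsh : ∀ x b, (hammingDist (f x) (f (sh b x)) : ℝ) ≤ 2 * C)
    {w d : ℕ} {θ : ℝ} (hw : 1 ≤ w) (hw2 : 2 * w ≤ k + 1) (hθ : 0 < θ) (hd : 1 ≤ d) :
    ∑ i, var (co f i) ≤ ((k + 1) * C + 4 * w ^ 2 * C) / (4 * (w * θ)) +
      (3 ^ d * Real.sqrt θ + 1 / d) / 4 * ((k + 1) * C) := by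
  classical
  have hw0 : (0 : ℝ) < w := by exact_mod_cast hw
  set I : Fin m → ℝ := fun i => ∑ p, infl p (co f i) with hI
  have hI0 : ∀ i, 0 ≤ I i := fun i => Finset.sum_nonneg fun p _ => infl_nonneg p _
  have hIsum : ∑ i, I i ≤ (k + 1) * C := by
    rw [hI, Finset.sum_comm]
    refine (Finset.sum_le_sum fun p _ => sum_infl p (hfl p)).trans (le_of_eq ?_)
    rw [Finset.sum_const, Finset.card_univ, Fintype.card_fin, nsmul_eq_mul]
    push_cast
    ring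
  have hSsum : ∑ i, Sh (co f i) ≤ 2 * C := sum_Sh hsh
  set B : Finset (Fin m) := Finset.univ.filter fun i => ∃ p, θ < infl p (co f i) with hB
  -- number of bad coordinates
  have hbad : (B.card : ℝ) * (w * θ) ≤ (k + 1) * C + 4 * w ^ 2 * C := by
    have h1 : ∑ i ∈ B, (w * θ) ≤ ∑ i ∈ B, (I i + w ^ 2 * (2 * Sh (co f i))) := by
      refine Finset.sum_le_sum fun i hi => ?_
      obtain ⟨p, hp⟩ := (Finset.mem_filter.1 hi).2
      have h2 := window (co f i) p w p.2 hw2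
      have h3 : aI (co f i) p = infl p (co f i) := by
        unfold aI
        rw [dif_pos p.2]
      rw [h3] at h2
      have h4 := mul_le_mul_of_nonneg_left hp.le hw0.le
      exact h4.trans h2
    rw [Finset.sum_const, nsmul_eq_mul, Finset.sum_add_distrib] at h1
    have h5 : ∑ i ∈ B, I i ≤ ∑ i, I i :=
      Finset.sum_le_sum_of_subset_of_nonneg (Finset.subset_univ _) fun i _ _ => hI0 i
    have h6 : ∑ i ∈ B, (w : ℝ) ^ 2 * (2 * Sh (co f i)) ≤ w ^ 2 * (2 * (2 * C)) := by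
      rw [← Finset.mul_sum, ← Finset.mul_sum]
      have h7 : ∑ i ∈ B, Sh (co f i) ≤ ∑ i, Sh (co f i) :=
        Finset.sum_le_sum_of_subset_of_nonneg (Finset.subset_univ _) fun i _ _ => Sh_nonneg _
      have h8 := h7.trans hSsum
      exact mul_le_mul_of_nonneg_left (by linarith) (by positivity)
    linarith
  have hsplit : ∑ i, var (co f i) = ∑ i ∈ B, var (co f i) + ∑ i ∈ Bᶜ, var (co f i) :=
    (Finset.sum_add_sum_compl B _).symm
  have h1 : ∑ i ∈ B, var (co f i) ≤ (B.card : ℝ) * (1 / 4) := by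
    refine (Finset.sum_le_sum fun i _ => var_le (co_01 f i)).trans (le_of_eq ?_)
    rw [Finset.sum_const, nsmul_eq_mul]
  have h2 : (B.card : ℝ) * (1 / 4) ≤ ((k + 1) * C + 4 * w ^ 2 * C) / (4 * (w * θ)) := by
    rw [le_div_iff₀ (by positivity)]
    linarith
  have hK : 0 ≤ (3 ^ d * Real.sqrt θ + 1 / (d : ℝ)) / 4 := by positivity
  have h3 : ∑ i ∈ Bᶜ, var (co f i) ≤ (3 ^ d * Real.sqrt θ + 1 / d) / 4 * ((k + 1) * C) := by
    have h4 : ∑ i ∈ Bᶜ, var (co f i) ≤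
        ∑ i ∈ Bᶜ, (3 ^ d * Real.sqrt θ + 1 / d) / 4 * I i := by
      refine Finset.sum_le_sum fun i hi => ?_
      have hi' : ∀ p, infl p (co f i) ≤ θ := by
        intro p
        by_contra hcon
        rw [not_le] at hcon
        exact Finset.mem_compl.1 hi (Finset.mem_filter.2 ⟨Finset.mem_univ _, p, hcon⟩)
      exact kkl (co_01 f i) hi' hd
    refine h4.trans ?_
    rw [← Finset.mul_sum]
    refine mul_le_mul_of_nonneg_left (le_trans ?_ hIsum) hK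
    exact Finset.sum_le_sum_of_subset_of_nonneg (Finset.subset_univ _) fun i _ _ => hI0 i
  rw [hsplit]
  linarith

/-- the choice of the parameters -/
theorem agg_log {k m q : ℕ} {f : (Fin (k + 1) → Bool) → Fin m → Bool} {C : ℝ} (hC : 0 ≤ C)
    (hfl : ∀ p x, (hammingDist (f x) (f (flp p x)) : ℝ) ≤ C)
    (hsh : ∀ x b, (hammingDist (f x) (f (sh b x)) : ℝ) ≤ 2 * C)
    (hq : 1 ≤ q) (hq2 : 2 ^ (32 * q) ≤ k + 1) :
    q * ∑ i, var (co f i) ≤ (3 / 2) * ((k + 1) * C) := by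
  have hq0 : (0 : ℝ) < q := by exact_mod_cast hq
  have hw2 : 2 * 2 ^ (16 * q) ≤ k + 1 := by
    refine le_trans ?_ hq2
    calc 2 * 2 ^ (16 * q) = 2 ^ (16 * q + 1) := by ring
      _ ≤ 2 ^ (32 * q) := Nat.pow_le_pow_right (by norm_num) (by omega)
  have h := agg hfl hsh (w := 2 ^ (16 * q)) (d := q) (θ := (1 / 2) ^ (8 * q)) Nat.one_le_two_pow hw2
    (by positivity) hq
  have e1 : Real.sqrt ((1 / 2) ^ (8 * q)) = (1 / 2 : ℝ) ^ (4 * q) := by
    rw [show (1 / 2 : ℝ) ^ (8 * q) = ((1 / 2) ^ (4 * q)) ^ 2 by rw [← pow_mul]; congr 1; ring]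
    exact Real.sqrt_sq (by positivity)
  have hpow : (q : ℝ) + 1 ≤ 2 ^ q := by
    have : q + 1 ≤ 2 ^ q := Nat.lt_two_pow_self
    exact_mod_cast this
  have e2 : (q : ℝ) * (3 ^ q * (1 / 2 : ℝ) ^ (4 * q)) ≤ 1 := by
    have h1 : (3 : ℝ) ^ q * (1 / 2 : ℝ) ^ (4 * q) = (3 / 16) ^ q := by
      rw [pow_mul, ← mul_pow]
      norm_num
    have h2 : (3 / 16 : ℝ) ^ q ≤ (1 / 2) ^ q := pow_le_pow_left₀ (by norm_num) (by norm_num) q
    have h3 : (q : ℝ) ≤ 2 ^ q := by linarith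
    rw [h1]
    calc (q : ℝ) * (3 / 16) ^ q ≤ 2 ^ q * (1 / 2) ^ q :=
          mul_le_mul h3 h2 (by positivity) (by positivity)
      _ = 1 := by rw [← mul_pow]; norm_num
  have e3 : (((2 ^ (16 * q) : ℕ) : ℝ)) * (1 / 2) ^ (8 * q) = 2 ^ (8 * q) := by
    push_cast
    rw [show 16 * q = 8 * q + 8 * q by ring, pow_add, mul_assoc, ← mul_pow]
    norm_num
  have e4 : (((2 ^ (16 * q) : ℕ) : ℝ)) ^ 2 ≤ k + 1 := by
    have : (2 ^ (16 * q)) ^ 2 ≤ k + 1 := by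
      rw [← pow_mul, show 16 * q * 2 = 32 * q by ring]
      exact hq2
    exact_mod_cast this
  rw [e1, e3] at h
  have e5 : (q : ℝ) * (5 / (4 * 2 ^ (8 * q))) ≤ 1 := by
    have h1 : (2 : ℝ) ^ q ≤ 2 ^ (8 * q) / 8 := by
      rw [le_div_iff₀ (by norm_num)]
      have : (2 : ℝ) ^ q * 8 = 2 ^ (q + 3) := by
        rw [pow_add]
        norm_num
      rw [this]
      exact pow_le_pow_right₀ (by norm_num) (by omega)
    have h2 : (0 : ℝ) < 2 ^ (8 * q) := by positivity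
    rw [mul_div_assoc', div_le_one (by positivity)]
    nlinarith
  have hkC : 0 ≤ ((k : ℝ) + 1) * C := by positivity
  have h1 : ((k : ℝ) + 1) * C + 4 * (((2 ^ (16 * q) : ℕ) : ℝ)) ^ 2 * C ≤ 5 * ((k + 1) * C) := by
    nlinarith
  have h2 : (((k : ℝ) + 1) * C + 4 * (((2 ^ (16 * q) : ℕ) : ℝ)) ^ 2 * C) / (4 * 2 ^ (8 * q)) ≤
      5 * ((k + 1) * C) / (4 * 2 ^ (8 * q)) :=
    div_le_div_of_nonneg_right h1 (by positivity)
  have h3 : (q : ℝ) * (5 * ((k + 1) * C) / (4 * 2 ^ (8 * q))) ≤ (k + 1) * C := by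
    have : (q : ℝ) * (5 * ((k + 1) * C) / (4 * 2 ^ (8 * q))) =
        ((q : ℝ) * (5 / (4 * 2 ^ (8 * q)))) * ((k + 1) * C) := by ring
    rw [this]
    nlinarith
  have h4 : (q : ℝ) * ((3 ^ q * (1 / 2 : ℝ) ^ (4 * q) + 1 / q) / 4 * ((k + 1) * C)) ≤
      (1 / 2) * ((k + 1) * C) := by
    have : (q : ℝ) * ((3 ^ q * (1 / 2 : ℝ) ^ (4 * q) + 1 / q) / 4 * ((k + 1) * C)) =
        ((q : ℝ) * (3 ^ q * (1 / 2 : ℝ) ^ (4 * q)) + 1) / 4 * ((k + 1) * C) := by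
      field_simp
    rw [this]
    nlinarith
  calc (q : ℝ) * ∑ i, var (co f i) ≤ q * ((((k : ℝ) + 1) * C +
        4 * (((2 ^ (16 * q) : ℕ) : ℝ)) ^ 2 * C) / (4 * 2 ^ (8 * q)) +
        (3 ^ q * (1 / 2 : ℝ) ^ (4 * q) + 1 / q) / 4 * ((k + 1) * C)) :=
        mul_le_mul_of_nonneg_left h hq0.le
    _ = q * ((((k : ℝ) + 1) * C + 4 * (((2 ^ (16 * q) : ℕ) : ℝ)) ^ 2 * C) / (4 * 2 ^ (8 * q))) +
        q * ((3 ^ q * (1 / 2 : ℝ) ^ (4 * q) + 1 / q) / 4 * ((k + 1) * C)) := by ring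
    _ ≤ q * (5 * ((k + 1) * C) / (4 * 2 ^ (8 * q))) +
        q * ((3 ^ q * (1 / 2 : ℝ) ^ (4 * q) + 1 / q) / 4 * ((k + 1) * C)) := by
        have := mul_le_mul_of_nonneg_left h2 hq0.le
        linarith
    _ ≤ (3 / 2) * ((k + 1) * C) := by linarith

end Pool.Agent.EHK
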