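import Mathlib

/-!
# EHK (MP_7d1a15_lc): Walsh functions and Bonami's inequality
-/

set_option linter.unusedSectionVars false

namespace Pool.Agent.EHK

variable {ι : Type} [Fintype ι] [DecidableEq ι]

/-- sign of a bit -/
def sg (b : Bool) : ℝ := if b then -1 else 1

lemma sg_mul_self (b : Bool) : sg b * sg b = 1 := by cases b <;> simp [sg]

lemma sg_not (b : Bool) : sg (!b) = - sg b := by cases b <;> simp [sg]

/-- Walsh functions -/
def chi (S : Finset ι) (x : ι → Bool) : ℝ := ∏ i ∈ S, sg (x i)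

/-- average over the cube -/
noncomputable def Ex (f : (ι → Bool) → ℝ) : ℝ := (∑ x, f x) / 2 ^ Fintype.card ι

/-- change of one bit -/
def flp (i : ι) (x : ι → Bool) : ι → Bool := Function.update x i (!x i)

lemma flp_flp (i : ι) (x : ι → Bool) : flp i (flp i x) = x := by
  funext j
  by_cases h : j = i
  · subst h; simp [flp]
  · simp [flp, h]

lemma flp_same (i : ι) (x : ι → Bool) : flp i x i = !x i := by simp [flp]

lemma flp_ne {i j : ι} (h : j ≠ i) (x : ι → Bool) : flp i x j = x j := by simp [flp, h]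

/-- `flp i` as a permutation -/
def flpE (i : ι) : Equiv.Perm (ι → Bool) := ⟨flp i, flp i, flp_flp i, flp_flp i⟩

lemma Ex_add (f g : (ι → Bool) → ℝ) : Ex (fun x => f x + g x) = Ex f + Ex g := by
  classical
  unfold Ex; rw [Finset.sum_add_distrib, add_div]

lemma Ex_const_mul (c : ℝ) (f : (ι → Bool) → ℝ) : Ex (fun x => c * f x) = c * Ex f := by
  unfold Ex; rw [← Finset.mul_sum, mul_div_assoc]

lemma Ex_const (c : ℝ) : Ex (fun _ : ι → Bool => c) = c := by
  unfold Ex
  rw [Finset.sum_const, Finset.card_univ, Fintype.card_fun, Fintype.card_bool, nsmul_eq_mul]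
  push_cast
  field_simp

lemma Ex_mono {f g : (ι → Bool) → ℝ} (h : ∀ x, f x ≤ g x) : Ex f ≤ Ex g := by
  unfold Ex
  exact div_le_div_of_nonneg_right (Finset.sum_le_sum fun x _ => h x) (by positivity)

lemma Ex_nonneg {f : (ι → Bool) → ℝ} (h : ∀ x, 0 ≤ f x) : 0 ≤ Ex f := by
  unfold Ex
  exact div_nonneg (Finset.sum_nonneg fun x _ => h x) (by positivity)

lemma Ex_sum {κ : Type} (s : Finset κ) (f : κ → (ι → Bool) → ℝ) :
    Ex (fun x => ∑ k ∈ s, f k x) = ∑ k ∈ s, Ex (f k) := by
  unfold Ex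
  rw [Finset.sum_comm, Finset.sum_div]

lemma Ex_flp (i : ι) (f : (ι → Bool) → ℝ) : Ex (fun x => f (flp i x)) = Ex f := by
  unfold Ex
  congr 1
  exact Equiv.sum_comp (flpE i) f

/-- Cauchy-Schwarz -/
lemma Ex_mul_sq_le (f g : (ι → Bool) → ℝ) :
    Ex (fun x => f x * g x) ^ 2 ≤ Ex (fun x => f x ^ 2) * Ex (fun x => g x ^ 2) := by
  unfold Ex
  rw [div_pow, div_mul_div_comm, ← sq]
  exact div_le_div_of_nonneg_right (Finset.sum_mul_sq_le_sq_mul_sq _ _ _) (by positivity)

lemma chi_insert {i : ι} {S : Finset ι} (h : i ∉ S) (x : ι → Bool) :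
    chi (insert i S) x = sg (x i) * chi S x := by
  unfold chi
  rw [Finset.prod_insert h]

lemma chi_flp_not_mem {i : ι} {S : Finset ι} (h : i ∉ S) (x : ι → Bool) :
    chi S (flp i x) = chi S x := by
  unfold chi
  apply Finset.prod_congr rfl
  intro j hj
  have hji : j ≠ i := fun e => h (e ▸ hj)
  rw [flp_ne hji]

lemma chi_flp_mem {i : ι} {S : Finset ι} (h : i ∈ S) (x : ι → Bool) :
    chi S (flp i x) = - chi S x := by
  rw [← Finset.insert_erase h, chi_insert (Finset.notMem_erase i S),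
    chi_insert (Finset.notMem_erase i S), chi_flp_not_mem (Finset.notMem_erase i S), flp_same,
    sg_not]
  ring

/-- Bonami's inequality: `‖T f‖_4 ≤ ‖f‖_2` with noise rate `r`, `r² = 1/3`. -/
theorem bonami {r : ℝ} (hr : r ^ 2 = 1 / 3) (A : Finset ι) : ∀ a : Finset ι → ℝ,
    Ex (fun x => (∑ S ∈ A.powerset, r ^ S.card * a S * chi S x) ^ 4) ≤
      (∑ S ∈ A.powerset, a S ^ 2) ^ 2 := by
  classical
  induction A using Finset.induction_on with
  | empty =>
    intro a
    simp only [Finset.powerset_empty, Finset.sum_singleton, Finset.card_empty, pow_zero, one_mul]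
    have : (fun x : ι → Bool => (a ∅ * chi ∅ x) ^ 4) = fun _ => a ∅ ^ 4 := by
      funext x; simp [chi]
    rw [this, Ex_const]
    apply le_of_eq; ring
  | insert i A hi ih =>
    intro a
    set G : (ι → Bool) → ℝ := fun x => ∑ S ∈ A.powerset, r ^ S.card * a S * chi S x with hG
    set H : (ι → Bool) → ℝ := fun x => ∑ S ∈ A.powerset, r ^ S.card * a (insert i S) * chi S x
      with hH
    have hmem : ∀ S ∈ A.powerset, i ∉ S := fun S hS h => hi (Finset.mem_powerset.1 hS h)
    have hP : ∀ x, (∑ S ∈ (insert i A).powerset, r ^ S.card * a S * chi S x) =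
        G x + r * (sg (x i) * H x) := by
      intro x
      rw [Finset.sum_powerset_insert hi]
      congr 1
      rw [hH]
      simp only
      rw [Finset.mul_sum, Finset.mul_sum]
      apply Finset.sum_congr rfl
      intro S hS
      rw [Finset.card_insert_of_notMem (hmem S hS), chi_insert (hmem S hS), pow_succ]
      ring
    have hGf : ∀ x, G (flp i x) = G x := by
      intro x
      apply Finset.sum_congr rfl
      intro S hS
      rw [chi_flp_not_mem (hmem S hS)]
    have hHf : ∀ x, H (flp i x) = H x := by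
      intro x
      apply Finset.sum_congr rfl
      intro S hS
      rw [chi_flp_not_mem (hmem S hS)]
    set α := ∑ S ∈ A.powerset, a S ^ 2 with hα
    set β := ∑ S ∈ A.powerset, a (insert i S) ^ 2 with hβ
    have hα0 : 0 ≤ α := Finset.sum_nonneg fun S _ => sq_nonneg _
    have hβ0 : 0 ≤ β := Finset.sum_nonneg fun S _ => sq_nonneg _
    have e1 : Ex (fun x => G x ^ 4) ≤ α ^ 2 := ih a
    have e2 : Ex (fun x => H x ^ 4) ≤ β ^ 2 := ih fun S => a (insert i S)
    have e3 : Ex (fun x => G x ^ 2 * H x ^ 2) ≤ α * β := by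
      have h1 := Ex_mul_sq_le (fun x => G x ^ 2) (fun x => H x ^ 2)
      have h2 : Ex (fun x => (G x ^ 2) ^ 2) = Ex (fun x => G x ^ 4) := by
        congr 1; funext x; ring
      have h3 : Ex (fun x => (H x ^ 2) ^ 2) = Ex (fun x => H x ^ 4) := by
        congr 1; funext x; ring
      rw [h2, h3] at h1
      have h4 : Ex (fun x => G x ^ 4) * Ex (fun x => H x ^ 4) ≤ α ^ 2 * β ^ 2 :=
        mul_le_mul e1 e2 (Ex_nonneg fun x => by positivity) (by positivity)
      have h5 : Ex (fun x => G x ^ 2 * H x ^ 2) ^ 2 ≤ (α * β) ^ 2 := by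
        rw [mul_pow]; exact h1.trans h4
      exact (abs_le_of_sq_le_sq' h5 (by positivity)).2
    have e4 : Ex (fun x => (G x + r * (sg (x i) * H x)) ^ 4) =
        Ex (fun x => G x ^ 4) + 2 * Ex (fun x => G x ^ 2 * H x ^ 2) +
          (1 / 9) * Ex (fun x => H x ^ 4) := by
      have h1 : Ex (fun x => (G x + r * (sg (x i) * H x)) ^ 4) =
          Ex (fun x => (G x + r * (-(sg (x i)) * H x)) ^ 4) := by
        rw [← Ex_flp i]
        congr 1
        funext x
        rw [hGf, hHf, flp_same, sg_not]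
      have h2 : 2 * Ex (fun x => (G x + r * (sg (x i) * H x)) ^ 4) =
          Ex (fun x => 2 * G x ^ 4 + 4 * (G x ^ 2 * H x ^ 2) + (2 / 9) * H x ^ 4) := by
        rw [two_mul]
        nth_rewrite 2 [h1]
        rw [← Ex_add]
        congr 1
        funext x
        have hs := sg_mul_self (x i)
        have hr4 : r ^ 4 = 1 / 9 := by
          have : r ^ 4 = (r ^ 2) ^ 2 := by ring
          rw [this, hr]; norm_num
        have hs2 : sg (x i) ^ 2 = 1 := by rw [sq]; exact hs
        have hs4 : sg (x i) ^ 4 = 1 := by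
          have : sg (x i) ^ 4 = (sg (x i) ^ 2) ^ 2 := by ring
          rw [this, hs2]; norm_num
        have : (G x + r * (sg (x i) * H x)) ^ 4 + (G x + r * (-sg (x i) * H x)) ^ 4 =
            2 * G x ^ 4 + 12 * (r ^ 2 * sg (x i) ^ 2) * (G x ^ 2 * H x ^ 2) +
              2 * (r ^ 4 * sg (x i) ^ 4) * H x ^ 4 := by ring
        rw [this, hr, hr4, hs2, hs4]
        ring
      have h3 : Ex (fun x => 2 * G x ^ 4 + 4 * (G x ^ 2 * H x ^ 2) + (2 / 9) * H x ^ 4) =
          2 * Ex (fun x => G x ^ 4) + 4 * Ex (fun x => G x ^ 2 * H x ^ 2) +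
            (2 / 9) * Ex (fun x => H x ^ 4) := by
        rw [Ex_add (fun x => 2 * G x ^ 4 + 4 * (G x ^ 2 * H x ^ 2)) (fun x => (2 / 9) * H x ^ 4),
          Ex_add (fun x => 2 * G x ^ 4) (fun x => 4 * (G x ^ 2 * H x ^ 2)), Ex_const_mul,
          Ex_const_mul, Ex_const_mul]
      linarith
    have e5 : (∑ S ∈ (insert i A).powerset, a S ^ 2) = α + β := by
      rw [Finset.sum_powerset_insert hi]
    rw [e5]
    have e6 : Ex (fun x => (∑ S ∈ (insert i A).powerset, r ^ S.card * a S * chi S x) ^ 4) =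
        Ex (fun x => (G x + r * (sg (x i) * H x)) ^ 4) := by
      congr 1; funext x; rw [hP]
    rw [e6, e4]
    nlinarith [mul_nonneg hβ0 hβ0]

end Pool.Agent.EHK
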