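import Pool.Agent.EHK.Infl

/-!
# EHK (MP_7d1a15_lc): the total variance of an injective map
-/

set_option linter.unusedSectionVars false

namespace Pool.Agent.EHK

variable {ι : Type} [Fintype ι] [DecidableEq ι]

/-- the coordinate `i` of `f` as a real function -/
noncomputable def co {m : ℕ} (f : (ι → Bool) → Fin m → Bool) (i : Fin m) (x : ι → Bool) : ℝ :=
  if f x i = true then 1 else 0

lemma co_01 {m : ℕ} (f : (ι → Bool) → Fin m → Bool) (i : Fin m) (x : ι → Bool) :
    co f i x = 0 ∨ co f i x = 1 := by
  unfold co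
  split_ifs
  · exact Or.inr rfl
  · exact Or.inl rfl

lemma var_01 {g : (ι → Bool) → ℝ} (hg : ∀ x, g x = 0 ∨ g x = 1) : var g = Ex g * (1 - Ex g) := by
  unfold var
  have : (fun x => g x ^ 2) = g := by
    funext x
    rcases hg x with h | h <;> rw [h] <;> norm_num
  rw [this]
  ring

lemma Ex_01 {g : (ι → Bool) → ℝ} (hg : ∀ x, g x = 0 ∨ g x = 1) : 0 ≤ Ex g ∧ Ex g ≤ 1 := by
  constructor
  · refine Ex_nonneg fun x => ?_
    rcases hg x with h | h <;> rw [h]
    norm_num
  · have h1 : Ex g ≤ Ex (fun _ : ι → Bool => (1 : ℝ)) := by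
      refine Ex_mono fun x => ?_
      rcases hg x with h | h <;> rw [h]
      norm_num
    rwa [Ex_const] at h1

lemma var_le {g : (ι → Bool) → ℝ} (hg : ∀ x, g x = 0 ∨ g x = 1) : var g ≤ 1 / 4 := by
  rw [var_01 hg]
  nlinarith [sq_nonneg (Ex g - 1 / 2)]

/-- the less frequent value -/
noncomputable def eps (g : (ι → Bool) → ℝ) : ℝ := min (Ex g) (1 - Ex g)

lemma eps_le {g : (ι → Bool) → ℝ} (hg : ∀ x, g x = 0 ∨ g x = 1) : eps g ≤ 2 * var g := by
  rw [var_01 hg]
  obtain ⟨h0, h1⟩ := Ex_01 hg
  unfold eps
  rcases le_total (Ex g) (1 - Ex g) with h | h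
  · rw [min_eq_left h]
    nlinarith
  · rw [min_eq_right h]
    nlinarith

/-- the more frequent value of the coordinate `i` -/
noncomputable def maj {m : ℕ} (f : (ι → Bool) → Fin m → Bool) (i : Fin m) : Bool :=
  if Ex (co f i) ≤ 1 - Ex (co f i) then false else true

/-- indicator of a difference from the more frequent value -/
noncomputable def df (a b : Bool) : ℝ := if a = b then 0 else 1

lemma Ex_df {m : ℕ} (f : (ι → Bool) → Fin m → Bool) (i : Fin m) :
    Ex (fun x => df (f x i) (maj f i)) = eps (co f i) := by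
  unfold eps
  by_cases h : Ex (co f i) ≤ 1 - Ex (co f i)
  · have h1 : maj f i = false := if_pos h
    rw [min_eq_left h]
    congr 1
    funext x
    rw [h1]
    unfold df co
    cases f x i <;> simp
  · have h1 : maj f i = true := if_neg h
    rw [min_eq_right (not_le.1 h).le]
    have h2 : (fun x => df (f x i) (maj f i)) = fun x => 1 + (-1) * co f i x := by
      funext x
      rw [h1]
      unfold df co
      cases f x i <;> simp
    rw [h2, Ex_add (fun _ => 1), Ex_const, Ex_const_mul]
    ring

/-- Chernoff-type count: an injective map has large total eps. -/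
theorem count {m : ℕ} {f : (ι → Bool) → Fin m → Bool} (hf : Function.Injective f) {s : ℝ}
    (hs : 0 ≤ s) :
    Fintype.card ι * Real.log 2 ≤ s * ∑ i, eps (co f i) + m * Real.exp (-s) := by
  classical
  set z := maj f with hz
  set d : (ι → Bool) → ℝ := fun x => ∑ i, df (f x i) (z i) with hd
  set D : ℝ := ∑ i, eps (co f i) with hD
  have hED : Ex d = D := by
    rw [hd, Ex_sum, hD]
    exact Finset.sum_congr rfl fun i _ => Ex_df f i
  have hN : (0 : ℝ) < 2 ^ Fintype.card ι := by positivity
  -- upper bound of the generating function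
  have hprod : ∀ u : Fin m → Bool, Real.exp (-s * ∑ i, df (u i) (z i)) =
      ∏ i, Real.exp (-s * df (u i) (z i)) := by
    intro u
    rw [Finset.mul_sum, Real.exp_sum]
  have hsum : ∑ u : Fin m → Bool, Real.exp (-s * ∑ i, df (u i) (z i)) =
      (1 + Real.exp (-s)) ^ m := by
    rw [Finset.sum_congr rfl fun u _ => hprod u]
    have h1 := Finset.prod_univ_sum (fun _ : Fin m => (Finset.univ : Finset Bool))
      (fun i b => Real.exp (-s * df b (z i)))
    rw [Fintype.piFinset_univ] at h1
    rw [← h1]
    have h2 : ∀ i : Fin m, ∑ b : Bool, Real.exp (-s * df b (z i)) = 1 + Real.exp (-s) := by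
      intro i
      rw [Fintype.sum_bool]
      unfold df
      cases z i <;> simp [add_comm]
    rw [Finset.prod_congr rfl fun i _ => h2 i, Finset.prod_const, Finset.card_univ,
      Fintype.card_fin]
  have hle : ∑ x, Real.exp (-s * d x) ≤ (1 + Real.exp (-s)) ^ m := by
    rw [← hsum]
    have h1 : ∑ x, Real.exp (-s * d x) = ∑ u ∈ Finset.univ.image f,
        Real.exp (-s * ∑ i, df (u i) (z i)) := by
      rw [Finset.sum_image fun a _ b _ hab => hf hab]
    rw [h1]
    exact Finset.sum_le_sum_of_subset_of_nonneg (Finset.subset_univ _)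
      fun u _ _ => (Real.exp_pos _).le
  have hexp : (1 + Real.exp (-s)) ^ m ≤ Real.exp (m * Real.exp (-s)) := by
    rw [mul_comm, Real.exp_mul, Real.rpow_natCast]
    refine pow_le_pow_left₀ (by positivity) ?_ m
    have := Real.add_one_le_exp (Real.exp (-s))
    linarith
  -- lower bound by convexity
  have hlow : 2 ^ Fintype.card ι * Real.exp (-s * D) ≤ ∑ x, Real.exp (-s * d x) := by
    have h1 : ∀ x, Real.exp (-s * D) * (1 + (-s) * (d x - D)) ≤ Real.exp (-s * d x) := by
      intro x
      have h2 := Real.add_one_le_exp ((-s) * (d x - D))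
      have h3 : Real.exp (-s * d x) = Real.exp (-s * D) * Real.exp ((-s) * (d x - D)) := by
        rw [← Real.exp_add]
        congr 1
        ring
      rw [h3]
      refine mul_le_mul_of_nonneg_left ?_ (Real.exp_pos _).le
      linarith
    have h4 : ∑ x, Real.exp (-s * D) * (1 + (-s) * (d x - D)) =
        2 ^ Fintype.card ι * Real.exp (-s * D) := by
      rw [← Finset.mul_sum, Finset.sum_add_distrib, ← Finset.mul_sum, Finset.sum_sub_distrib]
      have h5 : ∑ x, d x = 2 ^ Fintype.card ι * D := by
        rw [← hED]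
        unfold Ex
        field_simp
      rw [h5]
      simp only [Finset.sum_const, Finset.card_univ, Fintype.card_fun, Fintype.card_bool,
        nsmul_eq_mul]
      push_cast
      ring
    rw [← h4]
    exact Finset.sum_le_sum fun x _ => h1 x
  have hfin := (hlow.trans hle).trans hexp
  have h6 : (2 : ℝ) ^ Fintype.card ι = Real.exp (Fintype.card ι * Real.log 2) := by
    rw [mul_comm, Real.exp_mul, Real.exp_log (by norm_num), Real.rpow_natCast]
  rw [h6, ← Real.exp_add] at hfin
  have := Real.exp_le_exp.1 hfin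
  linarith

/-- The total variance of an injective map. -/
theorem total_var {n m : ℕ} (hn : 1 ≤ n) (hnm : n ≤ m) {f : (Fin n → Bool) → Fin m → Bool}
    (hf : Function.Injective f) :
    (11 / 50 : ℝ) * n ≤ Real.log (4 * m / n) * ∑ i, var (co f i) := by
  have hn0 : (0 : ℝ) < n := by exact_mod_cast hn
  have hm0 : (0 : ℝ) < m := by exact_mod_cast (lt_of_lt_of_le hn hnm)
  have hnm' : (n : ℝ) ≤ m := by exact_mod_cast hnm
  have hq : 1 ≤ 4 * (m : ℝ) / n := by
    rw [le_div_iff₀ hn0]
    linarith
  have hs : 0 ≤ Real.log (4 * m / n) := Real.log_nonneg hq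
  have h1 := count hf hs
  rw [Fintype.card_fin, Real.exp_neg, Real.exp_log (by positivity)] at h1
  have h2 : (m : ℝ) * (4 * (m : ℝ) / n)⁻¹ = n / 4 := by
    field_simp
  rw [h2] at h1
  have h3 : ∑ i, eps (co f i) ≤ 2 * ∑ i, var (co f i) := by
    rw [Finset.mul_sum]
    exact Finset.sum_le_sum fun i _ => eps_le (co_01 f i)
  have h4 := mul_le_mul_of_nonneg_left h3 hs
  have h5 : (69 / 100 : ℝ) < Real.log 2 := by
    have := Real.log_two_gt_d9
    linarith
  nlinarith

end Pool.Agent.EHK
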