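import Pool.Agent.EHK.Kkl

/-!
# EHK (MP_7d1a15_lc): influences of functions which change rarely under a shift
-/

namespace Pool.Agent.EHK

open Classical in
/-- indicator of `a ≠ b` -/
noncomputable def nq (a b : ℝ) : ℝ := if a = b then 0 else 1

lemma nq_nonneg (a b : ℝ) : 0 ≤ nq a b := by
  unfold nq; split_ifs <;> norm_num

lemma nq_comm (a b : ℝ) : nq a b = nq b a := by
  unfold nq; simp only [eq_comm]

lemma nq_triangle (a b c : ℝ) : nq a c ≤ nq a b + nq b c := by
  unfold nq
  by_cases h1 : a = b <;> by_cases h2 : b = c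
  · rw [if_pos (h1.trans h2), if_pos h1, if_pos h2]; norm_num
  · subst h1; rw [if_neg h2, if_pos rfl]; norm_num
  · subst h2; rw [if_neg h1, if_pos rfl]; norm_num
  · rw [if_neg h1, if_neg h2]; split_ifs <;> norm_num

lemma ind_eq {ι : Type} [Fintype ι] [DecidableEq ι] (i : ι) (g : (ι → Bool) → ℝ) (x : ι → Bool) :
    ind i g x = nq (g x) (g (flp i x)) := rfl

/-- drop the first letter, append `b` -/
def sh {k : ℕ} (b : Bool) (x : Fin (k + 1) → Bool) : Fin (k + 1) → Bool :=
  Fin.snoc (α := fun _ => Bool) (Fin.tail x) b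

lemma sh_flp {k : ℕ} (b : Bool) (x : Fin (k + 1) → Bool) (j : Fin k) :
    sh b (flp j.succ x) = flp j.castSucc (sh b x) := by
  funext i
  refine Fin.lastCases ?_ (fun i => ?_) i
  · have h1 : Fin.last k ≠ j.castSucc := (Fin.castSucc_lt_last j).ne'
    rw [flp_ne h1]
    simp [sh]
  · by_cases h : i = j
    · subst h
      rw [flp_same]
      simp [sh, Fin.tail, flp_same]
    · have h1 : i.castSucc ≠ j.castSucc := fun e => h (Fin.castSucc_injective k e)
      have h2 : i.succ ≠ j.succ := fun e => h (Fin.succ_injective k e)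
      rw [flp_ne h1]
      simp [sh, Fin.tail, flp_ne h2]

lemma sum_sh {k : ℕ} (φ : (Fin (k + 1) → Bool) → ℝ) :
    ∑ x, φ (sh true x) + ∑ x, φ (sh false x) = 2 * ∑ x, φ x := by
  have h1 : ∀ b : Bool, ∑ x, φ (sh b x) =
      2 * ∑ z : Fin k → Bool, φ (Fin.snoc (α := fun _ => Bool) z b) := by
    intro b
    rw [← (Fin.consEquiv (fun _ : Fin (k + 1) => Bool)).sum_comp, Fintype.sum_prod_type,
      Fintype.sum_bool]
    have h2 : ∀ a : Bool, ∑ z : Fin k → Bool, φ (sh b ((Fin.consEquiv (fun _ => Bool)) (a, z))) =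
        ∑ z : Fin k → Bool, φ (Fin.snoc (α := fun _ => Bool) z b) := by
      intro a
      apply Finset.sum_congr rfl
      intro z _
      congr 1
    rw [h2, h2]
    ring
  rw [h1, h1, ← (Fin.snocEquiv (fun _ : Fin (k + 1) => Bool)).sum_comp, Fintype.sum_prod_type,
    Fintype.sum_bool]
  have h3 : ∀ a : Bool, ∑ z : Fin k → Bool, φ ((Fin.snocEquiv (fun _ => Bool)) (a, z)) =
      ∑ z : Fin k → Bool, φ (Fin.snoc (α := fun _ => Bool) z a) := by
    intro a
    apply Finset.sum_congr rfl
    intro z _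
    congr 1
  rw [h3, h3]
  ring

lemma Ex_sh {k : ℕ} (φ : (Fin (k + 1) → Bool) → ℝ) :
    Ex (fun x => φ (sh true x)) + Ex (fun x => φ (sh false x)) = 2 * Ex φ := by
  unfold Ex
  rw [← add_div, sum_sh, mul_div_assoc]

/-- probability that the shift changes `g` -/
noncomputable def Sh {k : ℕ} (g : (Fin (k + 1) → Bool) → ℝ) : ℝ :=
  (Ex (fun x => nq (g x) (g (sh true x))) + Ex (fun x => nq (g x) (g (sh false x)))) / 2

lemma Sh_nonneg {k : ℕ} (g : (Fin (k + 1) → Bool) → ℝ) : 0 ≤ Sh g := by
  unfold Sh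
  have h1 : 0 ≤ Ex (fun x => nq (g x) (g (sh true x))) := Ex_nonneg fun x => nq_nonneg _ _
  have h2 : 0 ≤ Ex (fun x => nq (g x) (g (sh false x))) := Ex_nonneg fun x => nq_nonneg _ _
  linarith

lemma infl_step {k : ℕ} (g : (Fin (k + 1) → Bool) → ℝ) (j : Fin k) :
    infl j.castSucc g ≤ infl j.succ g + 2 * Sh g ∧ infl j.succ g ≤ infl j.castSucc g + 2 * Sh g := by
  have hc : 2 * infl j.castSucc g = Ex (fun x => nq (g (sh true x)) (g (sh true (flp j.succ x)))) +
      Ex (fun x => nq (g (sh false x)) (g (sh false (flp j.succ x)))) := by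
    unfold infl
    rw [← Ex_sh (ind j.castSucc g)]
    congr 1 <;>
    · congr 1
      funext x
      rw [ind_eq, sh_flp]
  have hf : ∀ b : Bool, Ex (fun x => nq (g (flp j.succ x)) (g (sh b (flp j.succ x)))) =
      Ex (fun x => nq (g x) (g (sh b x))) := fun b =>
    Ex_flp j.succ (fun x => nq (g x) (g (sh b x)))
  have h1 : ∀ b : Bool, Ex (fun x => nq (g (sh b x)) (g (sh b (flp j.succ x)))) ≤
      infl j.succ g + 2 * Ex (fun x => nq (g x) (g (sh b x))) := by
    intro b
    have e1 : ∀ x, nq (g (sh b x)) (g (sh b (flp j.succ x))) ≤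
        (nq (g x) (g (sh b x)) + ind j.succ g x) + nq (g (flp j.succ x)) (g (sh b (flp j.succ x))) := by
      intro x
      have t1 := nq_triangle (g (sh b x)) (g x) (g (sh b (flp j.succ x)))
      have t2 := nq_triangle (g x) (g (flp j.succ x)) (g (sh b (flp j.succ x)))
      rw [nq_comm (g (sh b x)) (g x)] at t1
      rw [ind_eq]
      linarith
    have e2 := Ex_mono e1
    rw [Ex_add (fun x => nq (g x) (g (sh b x)) + ind j.succ g x),
      Ex_add (fun x => nq (g x) (g (sh b x))), hf] at e2
    have e3 : Ex (fun x => ind j.succ g x) = infl j.succ g := rfl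
    linarith
  have h2 : ∀ b : Bool, infl j.succ g ≤ Ex (fun x => nq (g (sh b x)) (g (sh b (flp j.succ x)))) +
      2 * Ex (fun x => nq (g x) (g (sh b x))) := by
    intro b
    have e1 : ∀ x, ind j.succ g x ≤
        (nq (g x) (g (sh b x)) + nq (g (sh b x)) (g (sh b (flp j.succ x)))) +
          nq (g (flp j.succ x)) (g (sh b (flp j.succ x))) := by
      intro x
      have t1 := nq_triangle (g x) (g (sh b x)) (g (flp j.succ x))
      have t2 := nq_triangle (g (sh b x)) (g (sh b (flp j.succ x))) (g (flp j.succ x))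
      rw [nq_comm (g (sh b (flp j.succ x))) (g (flp j.succ x))] at t2
      rw [ind_eq]
      linarith
    have e2 := Ex_mono e1
    rw [Ex_add (fun x => nq (g x) (g (sh b x)) + nq (g (sh b x)) (g (sh b (flp j.succ x)))),
      Ex_add (fun x => nq (g x) (g (sh b x))), hf] at e2
    have e3 : Ex (fun x => ind j.succ g x) = infl j.succ g := rfl
    linarith
  have a1 := h1 true
  have a2 := h1 false
  have b1 := h2 true
  have b2 := h2 false
  unfold Sh
  constructor <;> linarith

/-- influences as a sequence -/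
noncomputable def aI {k : ℕ} (g : (Fin (k + 1) → Bool) → ℝ) (p : ℕ) : ℝ :=
  if h : p < k + 1 then infl ⟨p, h⟩ g else 0

lemma aI_nonneg {k : ℕ} (g : (Fin (k + 1) → Bool) → ℝ) (p : ℕ) : 0 ≤ aI g p := by
  unfold aI; split_ifs
  · exact infl_nonneg _ _
  · exact le_rfl

lemma aI_sum {k : ℕ} (g : (Fin (k + 1) → Bool) → ℝ) :
    ∑ p ∈ Finset.range (k + 1), aI g p = ∑ i, infl i g := by
  rw [← Fin.sum_univ_eq_sum_range]
  apply Finset.sum_congr rfl
  intro i _
  unfold aI
  rw [dif_pos i.2]

lemma aI_step {k : ℕ} (g : (Fin (k + 1) → Bool) → ℝ) (p : ℕ) (hp : p + 1 < k + 1) :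
    aI g p ≤ aI g (p + 1) + 2 * Sh g ∧ aI g (p + 1) ≤ aI g p + 2 * Sh g := by
  have h := infl_step g ⟨p, by omega⟩
  unfold aI
  rw [dif_pos (by omega : p < k + 1), dif_pos hp]
  exact h

lemma aI_right {k : ℕ} (g : (Fin (k + 1) → Bool) → ℝ) (p j : ℕ) (hp : p + j < k + 1) :
    aI g p ≤ aI g (p + j) + 2 * j * Sh g := by
  induction j with
  | zero => simp
  | succ j ih =>
    have h1 := ih (by omega)
    have h2 := (aI_step g (p + j) (by omega)).1
    have : p + (j + 1) = p + j + 1 := by ring
    rw [this]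
    push_cast
    linarith

lemma aI_left {k : ℕ} (g : (Fin (k + 1) → Bool) → ℝ) (p j : ℕ) (hp : p + j < k + 1) :
    aI g (p + j) ≤ aI g p + 2 * j * Sh g := by
  induction j with
  | zero => simp
  | succ j ih =>
    have h1 := ih (by omega)
    have h2 := (aI_step g (p + j) (by omega)).2
    have : p + (j + 1) = p + j + 1 := by ring
    rw [this]
    push_cast
    linarith

/-- a large influence forces a large total influence or a large shift probability -/
lemma window {k : ℕ} (g : (Fin (k + 1) → Bool) → ℝ) (p w : ℕ) (hp : p < k + 1)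
    (hw : 2 * w ≤ k + 1) :
    w * aI g p ≤ ∑ i, infl i g + w ^ 2 * (2 * Sh g) := by
  have hS := Sh_nonneg g
  have hsum : ∀ s : Finset ℕ, s ⊆ Finset.range (k + 1) → ∑ i ∈ s, aI g i ≤ ∑ i, infl i g := by
    intro s hs
    rw [← aI_sum]
    exact Finset.sum_le_sum_of_subset_of_nonneg hs fun i _ _ => aI_nonneg g i
  by_cases h : p + w ≤ k + 1
  · have h1 : ∑ j ∈ Finset.range w, (aI g p - w * (2 * Sh g)) ≤
        ∑ j ∈ Finset.range w, aI g (p + j) := by
      apply Finset.sum_le_sum
      intro j hj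
      rw [Finset.mem_range] at hj
      have h2 := aI_right g p j (by omega)
      have h3 : (j : ℝ) ≤ w := by exact_mod_cast hj.le
      nlinarith
    have h4 : ∑ j ∈ Finset.range w, aI g (p + j) = ∑ i ∈ (Finset.range w).image (fun j => p + j), aI g i := by
      rw [Finset.sum_image]
      intro a _ b _ hab
      exact Nat.add_left_cancel hab
    have h5 := hsum ((Finset.range w).image (fun j => p + j)) (by
      intro i hi
      obtain ⟨j, hj, rfl⟩ := Finset.mem_image.1 hi
      rw [Finset.mem_range] at hj ⊢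
      omega)
    rw [Finset.sum_const, Finset.card_range, nsmul_eq_mul] at h1
    nlinarith
  · have h1 : ∑ j ∈ Finset.range w, (aI g p - w * (2 * Sh g)) ≤
        ∑ j ∈ Finset.range w, aI g (p - j) := by
      apply Finset.sum_le_sum
      intro j hj
      rw [Finset.mem_range] at hj
      have e : p - j + j = p := by omega
      have h2 := aI_left g (p - j) j (by omega)
      rw [e] at h2
      have h3 : (j : ℝ) ≤ w := by exact_mod_cast hj.le
      nlinarith
    have h4 : ∑ j ∈ Finset.range w, aI g (p - j) = ∑ i ∈ (Finset.range w).image (fun j => p - j), aI g i := by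
      rw [Finset.sum_image]
      intro a ha b hb hab
      have ha' := Finset.mem_range.1 ha
      have hb' := Finset.mem_range.1 hb
      have hab' : p - a = p - b := hab
      omega
    have h5 := hsum ((Finset.range w).image (fun j => p - j)) (by
      intro i hi
      obtain ⟨j, hj, rfl⟩ := Finset.mem_image.1 hi
      rw [Finset.mem_range] at hj ⊢
      omega)
    rw [Finset.sum_const, Finset.card_range, nsmul_eq_mul] at h1
    nlinarith

end Pool.Agent.EHK
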