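import Pool.Agent.EHK.Bonami

/-!
# EHK (MP_7d1a15_lc): the inequality of Kahn, Kalai and Linial
-/

set_option linter.unusedSectionVars false

namespace Pool.Agent.EHK

variable {ι : Type} [Fintype ι] [DecidableEq ι]

/-- Walsh coefficients -/
noncomputable def hat (g : (ι → Bool) → ℝ) (S : Finset ι) : ℝ := Ex (fun x => g x * chi S x)

lemma chi_sum (x y : ι → Bool) :
    ∑ S : Finset ι, chi S x * chi S y = if x = y then 2 ^ Fintype.card ι else 0 := by
  have h1 : ∑ S : Finset ι, chi S x * chi S y = ∏ i, (1 + sg (x i) * sg (y i)) := by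
    rw [Finset.prod_one_add, Finset.powerset_univ]
    apply Finset.sum_congr rfl
    intro S _
    unfold chi
    rw [Finset.prod_mul_distrib]
  rw [h1]
  split_ifs with h
  · subst h
    have : ∀ i, 1 + sg (x i) * sg (x i) = (2 : ℝ) := by
      intro i; rw [sg_mul_self]; norm_num
    rw [Finset.prod_congr rfl fun i _ => this i, Finset.prod_const, Finset.card_univ]
  · obtain ⟨i, hi⟩ := Function.ne_iff.1 h
    apply Finset.prod_eq_zero (Finset.mem_univ i)
    revert hi
    cases x i <;> cases y i <;> simp [sg]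

theorem parseval (g : (ι → Bool) → ℝ) : ∑ S : Finset ι, hat g S ^ 2 = Ex (fun x => g x ^ 2) := by
  have hN : (0 : ℝ) < 2 ^ Fintype.card ι := by positivity
  set N : ℝ := 2 ^ Fintype.card ι with hNdef
  have h1 : ∀ S : Finset ι, hat g S ^ 2 =
      (∑ x, ∑ y, g x * g y * (chi S x * chi S y)) / N ^ 2 := by
    intro S
    unfold hat Ex
    rw [div_pow, sq (∑ x, g x * chi S x), Finset.sum_mul_sum]
    congr 1
    apply Finset.sum_congr rfl
    intro x _
    apply Finset.sum_congr rfl
    intro y _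
    ring
  rw [Finset.sum_congr rfl fun S _ => h1 S, ← Finset.sum_div, Finset.sum_comm]
  have h2 : ∀ x : ι → Bool, ∑ S : Finset ι, ∑ y, g x * g y * (chi S x * chi S y) =
      g x ^ 2 * N := by
    intro x
    rw [Finset.sum_comm]
    have h3 : ∀ y : ι → Bool, ∑ S : Finset ι, g x * g y * (chi S x * chi S y) =
        if x = y then g x ^ 2 * N else 0 := by
      intro y
      rw [← Finset.mul_sum, chi_sum]
      split_ifs with h
      · subst h; rw [sq]
      · ring
    rw [Finset.sum_congr rfl fun y _ => h3 y, Finset.sum_ite_eq, if_pos (Finset.mem_univ x)]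
  rw [Finset.sum_congr rfl fun x _ => h2 x, ← Finset.sum_mul]
  unfold Ex
  rw [← hNdef]
  field_simp

/-- discrete derivative -/
noncomputable def Di (i : ι) (g : (ι → Bool) → ℝ) (x : ι → Bool) : ℝ := (g x - g (flp i x)) / 2

lemma hat_Di (i : ι) (g : (ι → Bool) → ℝ) (S : Finset ι) :
    hat (Di i g) S = if i ∈ S then hat g S else 0 := by
  have h1 : hat (Di i g) S = (1 / 2) * hat g S + (-1 / 2) * Ex (fun x => g (flp i x) * chi S x) := by
    unfold hat
    rw [← Ex_const_mul, ← Ex_const_mul, ← Ex_add]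
    congr 1
    funext x
    unfold Di
    ring
  have h2 : Ex (fun x => g (flp i x) * chi S x) = Ex (fun x => g x * chi S (flp i x)) := by
    rw [← Ex_flp i (fun x => g (flp i x) * chi S x)]
    congr 1
    funext x
    rw [flp_flp]
  rw [h1, h2]
  split_ifs with h
  · have h3 : Ex (fun x => g x * chi S (flp i x)) = (-1) * hat g S := by
      unfold hat
      rw [← Ex_const_mul]
      congr 1
      funext x
      rw [chi_flp_mem h]
      ring
    rw [h3]; ring
  · have h3 : Ex (fun x => g x * chi S (flp i x)) = hat g S := by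
      unfold hat
      congr 1
      funext x
      rw [chi_flp_not_mem h]
    rw [h3]; ring

open Classical in
/-- indicator of the event that the bit `i` matters -/
noncomputable def ind (i : ι) (g : (ι → Bool) → ℝ) (x : ι → Bool) : ℝ :=
  if g x = g (flp i x) then 0 else 1

/-- influence -/
noncomputable def infl (i : ι) (g : (ι → Bool) → ℝ) : ℝ := Ex (ind i g)

/-- variance -/
noncomputable def var (g : (ι → Bool) → ℝ) : ℝ := Ex (fun x => g x ^ 2) - Ex g ^ 2

lemma ind_nonneg (i : ι) (g : (ι → Bool) → ℝ) (x : ι → Bool) : 0 ≤ ind i g x := by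
  unfold ind; split_ifs <;> norm_num

lemma ind_sq (i : ι) (g : (ι → Bool) → ℝ) (x : ι → Bool) : ind i g x ^ 2 = ind i g x := by
  unfold ind; split_ifs <;> norm_num

lemma infl_nonneg (i : ι) (g : (ι → Bool) → ℝ) : 0 ≤ infl i g := Ex_nonneg fun x => ind_nonneg i g x

lemma Di_sq {g : (ι → Bool) → ℝ} (hg : ∀ x, g x = 0 ∨ g x = 1) (i : ι) (x : ι → Bool) :
    Di i g x ^ 2 = (1 / 4) * ind i g x := by
  unfold Di ind
  rcases hg x with h1 | h1 <;> rcases hg (flp i x) with h2 | h2 <;> rw [h1, h2] <;> norm_num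

lemma Di_ind (i : ι) (g : (ι → Bool) → ℝ) (x : ι → Bool) : Di i g x * ind i g x = Di i g x := by
  unfold Di ind
  split_ifs with h
  · rw [h]; ring
  · ring

lemma energy {g : (ι → Bool) → ℝ} (hg : ∀ x, g x = 0 ∨ g x = 1) :
    ∑ S : Finset ι, (S.card : ℝ) * hat g S ^ 2 = (1 / 4) * ∑ i, infl i g := by
  have h1 : ∀ i, (1 / 4) * infl i g = ∑ S : Finset ι, if i ∈ S then hat g S ^ 2 else 0 := by
    intro i
    have h2 := parseval (Di i g)
    have h3 : Ex (fun x => Di i g x ^ 2) = (1 / 4) * infl i g := by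
      unfold infl
      rw [← Ex_const_mul]
      congr 1
      funext x
      exact Di_sq hg i x
    rw [← h3, ← h2]
    apply Finset.sum_congr rfl
    intro S _
    rw [hat_Di]
    split_ifs <;> ring
  rw [Finset.mul_sum, Finset.sum_congr rfl fun i _ => h1 i, Finset.sum_comm]
  apply Finset.sum_congr rfl
  intro S _
  rw [Finset.sum_ite_mem, Finset.univ_inter, Finset.sum_const, nsmul_eq_mul]

/-- weighted energy of the derivative -/
noncomputable def Qi (i : ι) (g : (ι → Bool) → ℝ) : ℝ :=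
  ∑ S : Finset ι, if i ∈ S then (1 / 3 : ℝ) ^ S.card * hat g S ^ 2 else 0

lemma Qi_nonneg (i : ι) (g : (ι → Bool) → ℝ) : 0 ≤ Qi i g := by
  apply Finset.sum_nonneg
  intro S _
  split_ifs <;> positivity

lemma Qi_sq_le {g : (ι → Bool) → ℝ} (hg : ∀ x, g x = 0 ∨ g x = 1) (i : ι) :
    Qi i g ^ 2 ≤ (1 / 16) * infl i g ^ 3 := by
  set r : ℝ := Real.sqrt (1 / 3) with hrdef
  have hr : r ^ 2 = 1 / 3 := by
    rw [hrdef]; exact Real.sq_sqrt (by norm_num)
  set b : Finset ι → ℝ := fun S => if i ∈ S then hat g S else 0 with hb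
  set v : (ι → Bool) → ℝ := fun x => ∑ S : Finset ι, r ^ S.card * (r ^ S.card * b S) * chi S x
    with hv
  have hterm : ∀ S : Finset ι, (r ^ S.card * b S) ^ 2 =
      if i ∈ S then (1 / 3 : ℝ) ^ S.card * hat g S ^ 2 else 0 := by
    intro S
    rw [mul_pow, ← pow_mul, mul_comm S.card 2, pow_mul, hr, hb]
    simp only
    split_ifs <;> ring
  have hQ1 : ∑ S : Finset ι, (r ^ S.card * b S) ^ 2 = Qi i g :=
    Finset.sum_congr rfl fun S _ => hterm S
  -- Bonami
  have hB : Ex (fun x => v x ^ 4) ≤ Qi i g ^ 2 := by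
    have := bonami hr (Finset.univ : Finset ι) (fun S => r ^ S.card * b S)
    rw [Finset.powerset_univ, hQ1] at this
    exact this
  -- duality
  have hD : Ex (fun x => Di i g x * v x) = Qi i g := by
    have h1 : (fun x => Di i g x * v x) = fun x => ∑ S : Finset ι,
        (r ^ S.card * (r ^ S.card * b S)) * (Di i g x * chi S x) := by
      funext x
      rw [hv]
      simp only
      rw [Finset.mul_sum]
      apply Finset.sum_congr rfl
      intro S _
      ring
    rw [h1, Ex_sum, ← hQ1]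
    apply Finset.sum_congr rfl
    intro S _
    rw [Ex_const_mul]
    have h2 : Ex (fun x => Di i g x * chi S x) = b S := hat_Di i g S
    rw [h2]
    ring
  -- two applications of Cauchy-Schwarz
  have h1 : Qi i g ^ 2 ≤ (1 / 4) * infl i g * Ex (fun x => ind i g x * v x ^ 2) := by
    have h2 := Ex_mul_sq_le (Di i g) (fun x => ind i g x * v x)
    have h3 : Ex (fun x => Di i g x * (ind i g x * v x)) = Qi i g := by
      rw [← hD]
      congr 1
      funext x
      rw [← mul_assoc, Di_ind]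
    have h4 : Ex (fun x => Di i g x ^ 2) = (1 / 4) * infl i g := by
      unfold infl
      rw [← Ex_const_mul]
      congr 1
      funext x
      exact Di_sq hg i x
    have h5 : Ex (fun x => (ind i g x * v x) ^ 2) = Ex (fun x => ind i g x * v x ^ 2) := by
      congr 1
      funext x
      rw [mul_pow, ind_sq]
    rw [h3, h4, h5] at h2
    exact h2
  have h2 : Ex (fun x => ind i g x * v x ^ 2) ^ 2 ≤ infl i g * Qi i g ^ 2 := by
    have h3 := Ex_mul_sq_le (ind i g) (fun x => v x ^ 2)
    have h4 : Ex (fun x => ind i g x ^ 2) = infl i g := by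
      unfold infl
      congr 1
      funext x
      exact ind_sq i g x
    have h5 : Ex (fun x => (v x ^ 2) ^ 2) = Ex (fun x => v x ^ 4) := by
      congr 1; funext x; ring
    rw [h4, h5] at h3
    exact h3.trans (mul_le_mul_of_nonneg_left hB (infl_nonneg i g))
  have h3 : 0 ≤ infl i g := infl_nonneg i g
  have h4 : 0 ≤ Qi i g := Qi_nonneg i g
  set W := Ex (fun x => ind i g x * v x ^ 2) with hW
  have hW0 : 0 ≤ W := Ex_nonneg fun x => mul_nonneg (ind_nonneg i g x) (sq_nonneg _)
  have h5 : (Qi i g ^ 2) ^ 2 ≤ ((1 / 16) * infl i g ^ 3) * Qi i g ^ 2 := by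
    calc (Qi i g ^ 2) ^ 2 ≤ ((1 / 4) * infl i g * W) ^ 2 :=
          pow_le_pow_left₀ (sq_nonneg _) h1 2
      _ = (1 / 16) * infl i g ^ 2 * W ^ 2 := by ring
      _ ≤ (1 / 16) * infl i g ^ 2 * (infl i g * Qi i g ^ 2) :=
          mul_le_mul_of_nonneg_left h2 (by positivity)
      _ = _ := by ring
  rcases eq_or_lt_of_le (sq_nonneg (Qi i g)) with h6 | h6
  · rw [← h6]; positivity
  · have h7 : Qi i g ^ 2 * Qi i g ^ 2 ≤ ((1 / 16) * infl i g ^ 3) * Qi i g ^ 2 := by
      rw [← sq]; exact h5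
    exact le_of_mul_le_mul_right h7 h6

lemma Qi_le {g : (ι → Bool) → ℝ} (hg : ∀ x, g x = 0 ∨ g x = 1) (i : ι) {θ : ℝ}
    (hθ : infl i g ≤ θ) : Qi i g ≤ (Real.sqrt θ / 4) * infl i g := by
  have h0 := infl_nonneg i g
  have hθ0 : 0 ≤ θ := h0.trans hθ
  have h1 := Qi_sq_le hg i
  have h2 : Qi i g ^ 2 ≤ ((Real.sqrt θ / 4) * infl i g) ^ 2 := by
    have h3 : ((Real.sqrt θ / 4) * infl i g) ^ 2 = (1 / 16) * (θ * infl i g ^ 2) := by
      rw [mul_pow, div_pow, Real.sq_sqrt hθ0]; ring
    rw [h3]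
    refine h1.trans ?_
    apply mul_le_mul_of_nonneg_left _ (by norm_num)
    have : infl i g ^ 3 = infl i g * infl i g ^ 2 := by ring
    rw [this]
    exact mul_le_mul_of_nonneg_right hθ (sq_nonneg _)
  exact (abs_le_of_sq_le_sq' h2 (by positivity)).2

/-- If all influences are at most `θ` then the variance is small compared with the total
influence. -/
theorem kkl {g : (ι → Bool) → ℝ} (hg : ∀ x, g x = 0 ∨ g x = 1) {θ : ℝ}
    (hθ : ∀ i, infl i g ≤ θ) {d : ℕ} (hd : 1 ≤ d) :
    var g ≤ (3 ^ d * Real.sqrt θ + 1 / d) / 4 * ∑ i, infl i g := by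
  have hd0 : (0 : ℝ) < d := by exact_mod_cast hd
  have h1 : var g = ∑ S : Finset ι, (if S = ∅ then 0 else hat g S ^ 2) := by
    unfold var
    rw [← parseval, Finset.sum_ite, Finset.sum_const_zero, zero_add]
    have h2 : hat g ∅ = Ex g := by
      unfold hat chi; simp
    rw [← h2]
    have h3 := Finset.sum_filter_add_sum_filter_not (Finset.univ : Finset (Finset ι))
      (fun S => S = ∅) (fun S => hat g S ^ 2)
    have h4 : (Finset.univ.filter (fun S : Finset ι => S = ∅)) = {∅} := by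
      ext S; simp
    rw [h4, Finset.sum_singleton] at h3
    linarith
  have h2 : ∑ i, Qi i g = ∑ S : Finset ι, (S.card : ℝ) * ((1 / 3 : ℝ) ^ S.card * hat g S ^ 2) := by
    unfold Qi
    rw [Finset.sum_comm]
    apply Finset.sum_congr rfl
    intro S _
    rw [Finset.sum_ite_mem, Finset.univ_inter, Finset.sum_const, nsmul_eq_mul]
  have h3 : ∑ i, Qi i g ≤ (Real.sqrt θ / 4) * ∑ i, infl i g := by
    rw [Finset.mul_sum]
    exact Finset.sum_le_sum fun i _ => Qi_le hg i (hθ i)
  have h4 : ∀ S : Finset ι, (if S = ∅ then 0 else hat g S ^ 2) ≤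
      3 ^ d * ((S.card : ℝ) * ((1 / 3 : ℝ) ^ S.card * hat g S ^ 2)) +
        (1 / d) * ((S.card : ℝ) * hat g S ^ 2) := by
    intro S
    have hs := sq_nonneg (hat g S)
    split_ifs with hS
    · positivity
    · have hc : 1 ≤ S.card := Finset.card_pos.2 (Finset.nonempty_iff_ne_empty.2 hS)
      have hc' : (1 : ℝ) ≤ S.card := by exact_mod_cast hc
      rcases le_or_gt S.card d with h | h
      · have e1 : (1 : ℝ) ≤ 3 ^ d * (1 / 3) ^ S.card := by
          obtain ⟨e, he⟩ := Nat.exists_eq_add_of_le h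
          have : (3 : ℝ) ^ d * (1 / 3) ^ S.card = 3 ^ e := by
            rw [he, pow_add, mul_comm ((3 : ℝ) ^ S.card) (3 ^ e), mul_assoc, ← mul_pow]
            norm_num
          rw [this]
          exact one_le_pow₀ (by norm_num)
        have e2 : 0 ≤ (1 / d : ℝ) * ((S.card : ℝ) * hat g S ^ 2) := by positivity
        have e3 : hat g S ^ 2 ≤ (3 ^ d * (1 / 3) ^ S.card) * ((S.card : ℝ) * hat g S ^ 2) := by
          have e4 : hat g S ^ 2 ≤ (S.card : ℝ) * hat g S ^ 2 := by nlinarith
          calc hat g S ^ 2 ≤ 1 * ((S.card : ℝ) * hat g S ^ 2) := by rw [one_mul]; exact e4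
            _ ≤ _ := mul_le_mul_of_nonneg_right e1 (by positivity)
        have e5 : (3 : ℝ) ^ d * ((S.card : ℝ) * ((1 / 3 : ℝ) ^ S.card * hat g S ^ 2)) =
            (3 ^ d * (1 / 3) ^ S.card) * ((S.card : ℝ) * hat g S ^ 2) := by ring
        rw [e5]
        linarith
      · have e1 : (1 : ℝ) ≤ (1 / d) * S.card := by
          rw [one_div, inv_mul_eq_div, le_div_iff₀ hd0, one_mul]
          exact_mod_cast h.le
        have e2 : 0 ≤ (3 : ℝ) ^ d * ((S.card : ℝ) * ((1 / 3 : ℝ) ^ S.card * hat g S ^ 2)) := by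
          positivity
        have e3 : hat g S ^ 2 ≤ ((1 / d) * S.card) * hat g S ^ 2 := by nlinarith
        have e4 : (1 / d : ℝ) * ((S.card : ℝ) * hat g S ^ 2) =
            ((1 / d) * S.card) * hat g S ^ 2 := by ring
        rw [e4]
        linarith
  have h5 := energy hg
  calc var g = ∑ S : Finset ι, (if S = ∅ then 0 else hat g S ^ 2) := h1
    _ ≤ ∑ S : Finset ι, (3 ^ d * ((S.card : ℝ) * ((1 / 3 : ℝ) ^ S.card * hat g S ^ 2)) +
        (1 / d) * ((S.card : ℝ) * hat g S ^ 2)) := Finset.sum_le_sum fun S _ => h4 S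
    _ = 3 ^ d * ∑ i, Qi i g + (1 / d) * ((1 / 4) * ∑ i, infl i g) := by
        rw [Finset.sum_add_distrib, ← Finset.mul_sum, ← Finset.mul_sum, h2, h5]
    _ ≤ 3 ^ d * ((Real.sqrt θ / 4) * ∑ i, infl i g) + (1 / d) * ((1 / 4) * ∑ i, infl i g) := by
        have := mul_le_mul_of_nonneg_left h3 (by positivity : (0 : ℝ) ≤ 3 ^ d)
        linarith
    _ = (3 ^ d * Real.sqrt θ + 1 / d) / 4 * ∑ i, infl i g := by ring

end Pool.Agent.EHK
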