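import Pool.Agent.EHK.Agg

/-!
# EHK (MP_7d1a15_lc): the lower bound on the cube
-/

set_option linter.unusedSectionVars false

namespace Pool.Agent.EHK

theorem cube_bound {n k m : ℕ} (hn : n = k + 1) {f : (Fin (k + 1) → Bool) → Fin m → Bool}
    (hf : Function.Injective f) {C : ℕ} (hk : 1 ≤ k)
    (hfl : ∀ p x, hammingDist (f x) (f (flp p x)) ≤ C)
    (hsh : ∀ x b, hammingDist (f x) (f (sh b x)) ≤ 2 * C) :
    Real.log n ≤ 1000 * C * Real.log (2 * m / n) := by
  have hn2 : 2 ≤ n := by omega
  have hn0 : (0 : ℝ) < n := by exact_mod_cast (by omega : 0 < n)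
  -- `n ≤ m`
  have hnm : n ≤ m := by
    have h1 := Fintype.card_le_of_injective f hf
    simp only [Fintype.card_fun, Fintype.card_bool, Fintype.card_fin] at h1
    rw [hn]
    exact (Nat.pow_le_pow_iff_right (by norm_num)).1 h1
  have hnm' : (n : ℝ) ≤ m := by exact_mod_cast hnm
  have hm0 : (0 : ℝ) < m := lt_of_lt_of_le hn0 hnm'
  -- `1 ≤ C`
  have hC1 : 1 ≤ C := by
    have h1 := hfl 0 (fun _ => false)
    have h2 : 0 < hammingDist (f fun _ => false) (f (flp 0 fun _ => false)) := by
      rw [hammingDist_pos]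
      intro h
      have h3 := congrFun (hf h) 0
      rw [flp_same] at h3
      simp at h3
    omega
  have hC1' : (1 : ℝ) ≤ C := by exact_mod_cast hC1
  have hlog2 : (69 / 100 : ℝ) < Real.log 2 := by
    have := Real.log_two_gt_d9
    linarith
  have hlog2' : Real.log 2 < 7 / 10 := by
    have := Real.log_two_lt_d9
    linarith
  set u : ℝ := Real.log (2 * m / n) with hu
  have hu2 : Real.log 2 ≤ u := by
    refine Real.log_le_log (by norm_num) ?_
    rw [le_div_iff₀ hn0]
    linarith
  have hs : Real.log (4 * m / n) = Real.log 2 + u := by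
    rw [hu, ← Real.log_mul (by norm_num) (by positivity)]
    congr 1
    ring
  set L := Nat.log 2 n with hL
  set q := L / 32 with hq
  have hnL : Real.log n ≤ (L + 1) * Real.log 2 := by
    have h1 : n < 2 ^ (L + 1) := Nat.lt_pow_succ_log_self (by norm_num) n
    have h2 : (n : ℝ) ≤ 2 ^ (L + 1) := by exact_mod_cast h1.le
    have h3 := Real.log_le_log hn0 h2
    rw [Real.log_pow] at h3
    push_cast at h3
    exact h3
  rcases Nat.eq_zero_or_pos q with hq0 | hq1
  · have h1 : L + 1 ≤ 32 := by omega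
    have h2 : ((L : ℝ) + 1) ≤ 32 := by exact_mod_cast h1
    have h3 : ((L : ℝ) + 1) * Real.log 2 ≤ 32 * (7 / 10) := by
      have : (0 : ℝ) ≤ (L : ℝ) + 1 := by positivity
      nlinarith
    have h4 : (1 : ℝ) * (69 / 100) ≤ C * u := mul_le_mul hC1' (by linarith) (by norm_num)
      (by positivity)
    nlinarith
  · have h1 : 2 ^ (32 * q) ≤ k + 1 := by
      have h2 : 2 ^ L ≤ n := Nat.pow_log_le_self 2 (by omega)
      rw [← hn]
      exact le_trans (Nat.pow_le_pow_right (by norm_num) (by omega)) h2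
    have h2 := agg_log (f := f) (C := (C : ℝ)) (by positivity)
      (fun p x => by exact_mod_cast hfl p x)
      (fun x b => by exact_mod_cast hsh x b) hq1 h1
    have h3 := total_var (by omega : 1 ≤ k + 1) (by omega : k + 1 ≤ m) hf
    set W : ℝ := ∑ i, var (co f i) with hW
    rw [← hn, hs] at h3
    have hnk : ((n : ℕ) : ℝ) = (k : ℝ) + 1 := by
      rw [hn]
      push_cast
      ring
    rw [← hnk] at h2
    have hq0' : (0 : ℝ) ≤ q := Nat.cast_nonneg _
    have hs0 : 0 ≤ Real.log 2 + u := by linarith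
    have hs1 : Real.log 2 + u ≤ 2 * u := by linarith
    -- combine
    have h4 : (11 / 50 : ℝ) * n * q ≤ (Real.log 2 + u) * ((3 / 2) * (n * C)) := by
      calc (11 / 50 : ℝ) * n * q ≤ ((Real.log 2 + u) * W) * q :=
            mul_le_mul_of_nonneg_right h3 hq0'
        _ = (Real.log 2 + u) * (q * W) := by ring
        _ ≤ (Real.log 2 + u) * ((3 / 2) * (n * C)) := mul_le_mul_of_nonneg_left h2 hs0
    have h5 : (11 / 50 : ℝ) * q ≤ (Real.log 2 + u) * ((3 / 2) * C) := by
      have h6 : ((11 / 50 : ℝ) * q) * n ≤ ((Real.log 2 + u) * ((3 / 2) * C)) * n := by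
        linarith
      exact le_of_mul_le_mul_right h6 hn0
    have hCu : 0 ≤ (C : ℝ) := by positivity
    have h7 : (Real.log 2 + u) * ((3 / 2) * C) ≤ (2 * u) * ((3 / 2) * C) :=
      mul_le_mul_of_nonneg_right hs1 (by positivity)
    have h8 : (L : ℝ) + 1 ≤ 64 * q := by
      have : L + 1 ≤ 64 * q := by omega
      exact_mod_cast this
    have h9 : ((L : ℝ) + 1) * Real.log 2 ≤ (64 * q) * (7 / 10) :=
      mul_le_mul h8 hlog2'.le (by linarith) (by positivity)
    have h10 : 0 ≤ (C : ℝ) * u := mul_nonneg hCu (by linarith)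
    nlinarith

end Pool.Agent.EHK
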