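import Pool.Agent.EHK.Main

/-!
# EHK (MP_7d1a15_lc): flips and shifts of strings as edits
-/

namespace Pool.Agent.EHK

/-- the string with letters `x` -/
def str {k : ℕ} (x : Fin (k + 1) → Bool) : List Bool := List.ofFn x

lemma str_inj {k : ℕ} : Function.Injective (str (k := k)) := List.ofFn_injective

lemma str_length {k : ℕ} (x : Fin (k + 1) → Bool) : (str x).length = k + 1 := List.length_ofFn

lemma str_ne_nil {k : ℕ} (x : Fin (k + 1) → Bool) : str x ≠ [] := by
  intro h
  have := str_length x
  rw [h] at this
  simp at this

lemma str_get {k : ℕ} (x : Fin (k + 1) → Bool) (i : ℕ) (h : i < (str x).length)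
    (h' : i < k + 1) : (str x)[i] = x ⟨i, h'⟩ := List.getElem_ofFn h

/-- a flip is a substitution -/
lemma str_flp {k : ℕ} (p : Fin (k + 1)) (x : Fin (k + 1) → Bool) :
    ∃ (u v : List Bool) (c d : Bool), str x = u ++ c :: v ∧ str (flp p x) = u ++ d :: v := by
  have hp : (p : ℕ) < (str x).length := by rw [str_length]; exact p.2
  refine ⟨(str x).take p, (str x).drop (p + 1), x p, !x p, ?_, ?_⟩
  · have h1 : (str x)[(p : ℕ)] = x p := str_get x p hp p.2
    rw [← h1, ← List.drop_eq_getElem_cons hp, List.take_append_drop]
  · have h2 : str (flp p x) = (str x).set p (!x p) := by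
      refine List.ext_getElem ?_ fun i h3 h4 => ?_
      · rw [List.length_set, str_length, str_length]
      · have h3' : i < k + 1 := by rwa [str_length] at h3
        have h3'' : i < (str x).length := by rw [str_length]; exact h3'
        rw [List.getElem_set, str_get _ i h3 h3', str_get _ i h3'' h3']
        split_ifs with h5
        · have : (⟨i, h3'⟩ : Fin (k + 1)) = p := Fin.ext h5.symm
          rw [this, flp_same]
        · rw [flp_ne]
          intro h6
          exact h5 (congrArg Fin.val h6).symm
    rw [h2, List.set_eq_take_append_cons_drop, if_pos hp]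

/-- a shift is a deletion and an insertion -/
lemma str_sh {k : ℕ} (b : Bool) (x : Fin (k + 1) → Bool) :
    ∃ (v : List Bool) (c : Bool), v.length = k ∧ str x = c :: v ∧ str (sh b x) = v ++ [b] := by
  refine ⟨List.ofFn (Fin.tail x), x 0, List.length_ofFn, ?_, ?_⟩
  · unfold str
    rw [List.ofFn_succ]
    rfl
  · unfold str
    rw [List.ofFn_succ', List.concat_eq_append]
    congr 1
    · congr 1
      funext i
      simp [sh]
    · simp [sh]

end Pool.Agent.EHK
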